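import Mathlib

/-! Definitions for minimum-length multiples of integer polynomials. -/

set_option autoImplicit false

open Polynomial

namespace Q247.ML

/-- The length of an integer polynomial: the sum of the absolute values of its coefficients. -/
def len (F : ℤ[X]) : ℕ := ∑ i ∈ F.support, (F.coeff i).natAbs

/-- `F` is a minimum-length multiple of `P`: a nonzero multiple `P * T` (with `T ∈ ℤ[X]`) whose
length is smallest among all nonzero multiples of `P` in `ℤ[X]`. -/
structure IsMinLengthMultiple (P F : ℤ[X]) : Prop where
  ne_zero : F ≠ 0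
  dvd : P ∣ F
  min : ∀ G : ℤ[X], G ≠ 0 → P ∣ G → len F ≤ len G

/-- The polynomial with a given list of coefficients, `[a₀, a₁, …, a_d] ↦ a₀ + a₁ X + … + a_d X^d`
(trailing zeros allowed). -/
noncomputable def toPoly : List ℤ → ℤ[X]
  | [] => 0
  | a :: l => C a + X * toPoly l

theorem coeff_natAbs_le_len (F : ℤ[X]) (i : ℕ) : (F.coeff i).natAbs ≤ len F := by
  classical
  by_cases h : i ∈ F.support
  · exact Finset.single_le_sum (f := fun i => (F.coeff i).natAbs) (fun _ _ => Nat.zero_le _) h
  · rw [notMem_support_iff.1 h]; simp

theorem card_support_le_len (F : ℤ[X]) : F.support.card ≤ len F := by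
  classical
  have h : ∀ i ∈ F.support, 1 ≤ (F.coeff i).natAbs := by
    intro i hi
    have := mem_support_iff.1 hi
    omega
  calc F.support.card = ∑ i ∈ F.support, 1 := by simp
    _ ≤ _ := Finset.sum_le_sum h

end Q247.ML
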