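import Mathlib
import Pool.Agent.Q247.ML.Defs

/-! The search algorithm, its correctness relative to the bounds, and its computability.
The first block (primitive recursiveness of integer arithmetic) is copied from the
starting library (`Pool/Agent/Helper566/FD/J8.lean`). -/

set_option autoImplicit false

open Polynomial

namespace Q247.ML

theorem encode_int_ofNat (n : ℕ) : Encodable.encode (n : ℤ) = 2 * n := rfl
theorem encode_int_negSucc (n : ℕ) : Encodable.encode (Int.negSucc n) = 2 * n + 1 := rfl

theorem prim_toNat : Primrec Int.toNat := by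
  have h : Primrec (fun n : ℕ => if n % 2 = 0 then n / 2 else 0) := by
    refine Primrec.ite ?_ ?_ (Primrec.const 0)
    · exact Primrec.eq.comp (Primrec.nat_mod.comp Primrec.id (Primrec.const 2)) (Primrec.const 0)
    · exact Primrec.nat_div.comp Primrec.id (Primrec.const 2)
  refine (h.comp Primrec.encode).of_eq fun z => ?_
  cases z with
  | ofNat n =>
    show (if (Encodable.encode (n : ℤ)) % 2 = 0 then (Encodable.encode (n : ℤ)) / 2 else 0) = n
    rw [encode_int_ofNat, if_pos (by omega)]; omega
  | negSucc n =>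
    show (if (Encodable.encode (Int.negSucc n)) % 2 = 0 then (Encodable.encode (Int.negSucc n)) / 2 else 0) = 0
    rw [encode_int_negSucc, if_neg (by omega)]

theorem prim_toNat_neg : Primrec (fun z : ℤ => (-z).toNat) := by
  have h : Primrec (fun n : ℕ => if n % 2 = 0 then 0 else n / 2 + 1) := by
    refine Primrec.ite ?_ (Primrec.const 0) ?_
    · exact Primrec.eq.comp (Primrec.nat_mod.comp Primrec.id (Primrec.const 2)) (Primrec.const 0)
    · exact Primrec.succ.comp (Primrec.nat_div.comp Primrec.id (Primrec.const 2))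
  refine (h.comp Primrec.encode).of_eq fun z => ?_
  cases z with
  | ofNat n =>
    show (if (Encodable.encode (n : ℤ)) % 2 = 0 then 0 else (Encodable.encode (n : ℤ)) / 2 + 1) = (-(n:ℤ)).toNat
    rw [encode_int_ofNat, if_pos (by omega)]; omega
  | negSucc n =>
    show (if (Encodable.encode (Int.negSucc n)) % 2 = 0 then 0 else (Encodable.encode (Int.negSucc n)) / 2 + 1) =
      (-(Int.negSucc n)).toNat
    rw [encode_int_negSucc, if_neg (by omega)]
    rw [Int.neg_negSucc]
    simp
    omega

theorem prim_natSub : Primrec₂ (fun p q : ℕ => (p : ℤ) - (q : ℤ)) := by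
  have h : Primrec₂ (fun p q : ℕ => if q ≤ p then 2 * (p - q) else 2 * (q - p) - 1) := by
    refine Primrec.ite ?_ ?_ ?_
    · exact Primrec.nat_le.comp Primrec.snd Primrec.fst
    · exact Primrec.nat_mul.comp (Primrec.const 2) (Primrec.nat_sub.comp Primrec.fst Primrec.snd)
    · exact Primrec.nat_sub.comp (Primrec.nat_mul.comp (Primrec.const 2)
        (Primrec.nat_sub.comp Primrec.snd Primrec.fst)) (Primrec.const 1)
  refine Primrec.encode_iff.1 (Primrec.of_eq (α := ℕ × ℕ) h fun a => ?_)
  obtain ⟨p, q⟩ := a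
  show (if q ≤ p then 2 * (p - q) else 2 * (q - p) - 1) = Encodable.encode ((p : ℤ) - (q : ℤ))
  split_ifs with hq
  · have : (p : ℤ) - q = ((p - q : ℕ) : ℤ) := by omega
    rw [this, encode_int_ofNat]
  · have : (p : ℤ) - q = Int.negSucc (q - p - 1) := by
      rw [Int.negSucc_eq]; omega
    rw [this, encode_int_negSucc]; omega

theorem prim_natCast : Primrec (fun p : ℕ => (p : ℤ)) := by
  refine (prim_natSub.comp Primrec.id (Primrec.const 0)).of_eq fun n => ?_
  simp

theorem prim_int_of_parts (f : ℤ → ℤ → ℤ) (P N : ℕ → ℕ → ℕ → ℕ → ℕ)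
    (hP : Primrec (fun a : (ℕ × ℕ) × (ℕ × ℕ) => P a.1.1 a.1.2 a.2.1 a.2.2))
    (hN : Primrec (fun a : (ℕ × ℕ) × (ℕ × ℕ) => N a.1.1 a.1.2 a.2.1 a.2.2))
    (h : ∀ x y, f x y = (P x.toNat (-x).toNat y.toNat (-y).toNat : ℤ) -
      (N x.toNat (-x).toNat y.toNat (-y).toNat : ℤ)) : Primrec₂ f := by
  have hx : Primrec (fun a : ℤ × ℤ => ((a.1.toNat, (-a.1).toNat), (a.2.toNat, (-a.2).toNat))) :=
    Primrec.pair (Primrec.pair (prim_toNat.comp Primrec.fst) (prim_toNat_neg.comp Primrec.fst))
      (Primrec.pair (prim_toNat.comp Primrec.snd) (prim_toNat_neg.comp Primrec.snd))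
  refine (prim_natSub.comp (hP.comp hx) (hN.comp hx)).of_eq fun a => ?_
  exact (h a.1 a.2).symm

theorem prim_int_add : Primrec₂ (fun x y : ℤ => x + y) := by
  refine prim_int_of_parts _ (fun a b c d => a + c) (fun a b c d => b + d) ?_ ?_ ?_
  · exact Primrec.nat_add.comp (Primrec.fst.comp Primrec.fst) (Primrec.fst.comp Primrec.snd)
  · exact Primrec.nat_add.comp (Primrec.snd.comp Primrec.fst) (Primrec.snd.comp Primrec.snd)
  · intro x y; push_cast; omega

theorem prim_int_neg : Primrec (fun x : ℤ => - x) := by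
  have h : Primrec₂ (fun x _y : ℤ => - x) := by
    refine prim_int_of_parts _ (fun a b c d => b) (fun a b c d => a) ?_ ?_ ?_
    · exact (Primrec.snd.comp Primrec.fst)
    · exact (Primrec.fst.comp Primrec.fst)
    · intro x y; omega
  exact h.comp Primrec.id Primrec.id

theorem prim_int_sub : Primrec₂ (fun x y : ℤ => x - y) := by
  refine prim_int_of_parts _ (fun a b c d => a + d) (fun a b c d => b + c) ?_ ?_ ?_
  · exact Primrec.nat_add.comp (Primrec.fst.comp Primrec.fst) (Primrec.snd.comp Primrec.snd)
  · exact Primrec.nat_add.comp (Primrec.snd.comp Primrec.fst) (Primrec.fst.comp Primrec.snd)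
  · intro x y; push_cast; omega

theorem prim_int_mul : Primrec₂ (fun x y : ℤ => x * y) := by
  refine prim_int_of_parts _ (fun a b c d => a * c + b * d) (fun a b c d => a * d + b * c) ?_ ?_ ?_
  · exact Primrec.nat_add.comp
      (Primrec.nat_mul.comp (Primrec.fst.comp Primrec.fst) (Primrec.fst.comp Primrec.snd))
      (Primrec.nat_mul.comp (Primrec.snd.comp Primrec.fst) (Primrec.snd.comp Primrec.snd))
  · exact Primrec.nat_add.comp
      (Primrec.nat_mul.comp (Primrec.fst.comp Primrec.fst) (Primrec.snd.comp Primrec.snd))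
      (Primrec.nat_mul.comp (Primrec.snd.comp Primrec.fst) (Primrec.fst.comp Primrec.snd))
  · intro x y
    push_cast
    have hx : x = (x.toNat : ℤ) - ((-x).toNat : ℤ) := by omega
    have hy : y = (y.toNat : ℤ) - ((-y).toNat : ℤ) := by omega
    generalize (x.toNat : ℤ) = a at *
    generalize ((-x).toNat : ℤ) = b at *
    generalize (y.toNat : ℤ) = c at *
    generalize ((-y).toNat : ℤ) = d at *
    rw [hx, hy]
    ring



theorem prim_natAbs : Primrec Int.natAbs := by
  refine (Primrec.nat_add.comp prim_toNat prim_toNat_neg).of_eq fun z => ?_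
  show z.toNat + (-z).toNat = z.natAbs
  omega

/-! ### list arithmetic -/

def addL (a b : List ℤ) : List ℤ :=
  (List.range (max a.length b.length)).map (fun i => a.getD i 0 + b.getD i 0)

def scaleL (c : ℤ) (b : List ℤ) : List ℤ := b.map (fun x => c * x)

def mulL (a b : List ℤ) : List ℤ := a.foldr (fun c acc => addL (scaleL c b) (0 :: acc)) []

def lenL (a : List ℤ) : ℕ := a.foldr (fun c acc => c.natAbs + acc) 0

def extend (B : ℕ) (L : List (List ℤ)) : List (List ℤ) :=
  L.flatMap (fun t => (List.range (2 * B + 1)).map (fun i : ℕ => ((i : ℤ) - (B : ℤ)) :: t))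

def cands (B m : ℕ) : List (List ℤ) := (extend B)^[m] [[]]

theorem prim_addL : Primrec₂ addL := by
  unfold addL
  refine Primrec.list_map ?_ ?_
  · exact Primrec.list_range.comp (Primrec.nat_max.comp (Primrec.list_length.comp Primrec.fst)
      (Primrec.list_length.comp Primrec.snd))
  · exact prim_int_add.comp
      ((Primrec.list_getD 0).comp (Primrec.fst.comp Primrec.fst) Primrec.snd)
      ((Primrec.list_getD 0).comp (Primrec.snd.comp Primrec.fst) Primrec.snd)

theorem prim_scaleL : Primrec₂ scaleL := by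
  unfold scaleL
  refine Primrec.list_map Primrec.snd ?_
  exact prim_int_mul.comp (Primrec.fst.comp Primrec.fst) Primrec.snd

theorem prim_mulL : Primrec₂ mulL := by
  unfold mulL
  refine Primrec.list_foldr (f := fun p : List ℤ × List ℤ => p.1) (g := fun _ => ([] : List ℤ))
    (h := fun p q => addL (scaleL q.1 p.2) (0 :: q.2)) Primrec.fst (Primrec.const []) ?_
  refine prim_addL.comp (prim_scaleL.comp (Primrec.fst.comp Primrec.snd)
    (Primrec.snd.comp Primrec.fst)) ?_
  exact Primrec.list_cons.comp (Primrec.const 0) (Primrec.snd.comp Primrec.snd)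

theorem prim_lenL : Primrec lenL := by
  unfold lenL
  refine Primrec.list_foldr (f := fun p : List ℤ => p) (g := fun _ => (0 : ℕ))
    (h := fun _ q => q.1.natAbs + q.2) Primrec.id (Primrec.const 0) ?_
  exact Primrec.nat_add.comp (prim_natAbs.comp (Primrec.fst.comp Primrec.snd))
    (Primrec.snd.comp Primrec.snd)

theorem prim_extend : Primrec₂ extend := by
  unfold extend
  refine Primrec.list_flatMap Primrec.snd ?_
  refine Primrec.list_map ?_ ?_
  · exact Primrec.list_range.comp (Primrec.succ.comp
      (Primrec.nat_mul.comp (Primrec.const 2) (Primrec.fst.comp Primrec.fst)))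
  · refine Primrec.list_cons.comp ?_ (Primrec.snd.comp Primrec.fst)
    exact prim_natSub.comp Primrec.snd (Primrec.fst.comp (Primrec.fst.comp Primrec.fst))

theorem prim_cands : Primrec₂ cands := by
  unfold cands
  refine Primrec.nat_iterate (f := fun p : ℕ × ℕ => p.2) (g := fun _ => [[]])
    (h := fun p L => extend p.1 L) Primrec.snd (Primrec.const _) ?_
  exact prim_extend.comp (Primrec.fst.comp Primrec.fst) Primrec.snd

end Q247.ML
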