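import Mathlib

/-! The gap principle for multiples of a polynomial whose constant coefficient is not a unit. -/

set_option autoImplicit false

open Polynomial

namespace Q247.ML

theorem dvd_coeff (p : ℤ) (hp : Prime p) (Q Y : ℤ[X]) (s M : ℕ) (hs : ¬ p ∣ Q.coeff s)
    (hs' : ∀ a < s, p ∣ Q.coeff a) (R : ℤ) (hR : p ∣ R) (h : X ^ M ∣ C R - Q * Y) :
    ∀ i, i + s < M → p ∣ Y.coeff i := by
  intro i
  induction i using Nat.strong_induction_on with
  | _ i ih =>
    intro hi
    have h1 := (X_pow_dvd_iff.1 h) (i + s) hi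
    rw [coeff_sub, coeff_mul, coeff_C, sub_eq_zero] at h1
    have h2 : p ∣ ∑ x ∈ Finset.HasAntidiagonal.antidiagonal (i + s), Q.coeff x.1 * Y.coeff x.2 := by
      rw [← h1]
      split_ifs
      · exact hR
      · exact dvd_zero p
    have hmem : (s, i) ∈ Finset.HasAntidiagonal.antidiagonal (i + s) := by
      rw [Finset.HasAntidiagonal.mem_antidiagonal]; omega
    rw [← Finset.add_sum_erase _ _ hmem] at h2
    have h3 : p ∣ ∑ x ∈ (Finset.HasAntidiagonal.antidiagonal (i + s)).erase (s, i), Q.coeff x.1 * Y.coeff x.2 := by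
      refine Finset.dvd_sum fun x hx => ?_
      rw [Finset.mem_erase, Finset.HasAntidiagonal.mem_antidiagonal] at hx
      rcases lt_trichotomy x.1 s with h4 | h4 | h4
      · exact Dvd.dvd.mul_right (hs' _ h4) _
      · exfalso
        apply hx.1
        ext
        · exact h4
        · simp only
          omega
      · exact Dvd.dvd.mul_left (ih x.2 (by omega) (by omega)) _
    have h5 := (dvd_add_left h3).1 h2
    exact (hp.dvd_or_dvd h5).resolve_left hs

theorem pow_dvd (p : ℤ) (hp : Prime p) (Q : ℤ[X]) (s n : ℕ) (hsn : s ≤ n) (hs1 : 1 ≤ s)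
    (hs : ¬ p ∣ Q.coeff s) (hs' : ∀ a < s, p ∣ Q.coeff a) (k : ℕ) :
    ∀ (M : ℕ) (R : ℤ) (Y : ℤ[X]), k * n + 1 ≤ M → X ^ M ∣ C R - Q * Y → p ^ (k + 1) ∣ R := by
  have base : ∀ (M : ℕ) (R : ℤ) (Y : ℤ[X]), 1 ≤ M → X ^ M ∣ C R - Q * Y → p ∣ R := by
    intro M R Y hM h
    have h1 := (X_pow_dvd_iff.1 h) 0 (by omega)
    rw [coeff_sub, mul_coeff_zero, coeff_C_zero, sub_eq_zero] at h1
    rw [h1]
    exact Dvd.dvd.mul_right (hs' 0 (by omega)) _
  induction k with
  | zero =>
    intro M R Y hM h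
    rw [zero_add, pow_one]
    exact base M R Y (by omega) h
  | succ k ih =>
    intro M R Y hM h
    have hRp : p ∣ R := base M R Y (by omega) h
    have hY := dvd_coeff p hp Q Y s M hs hs' R hRp h
    obtain ⟨R', rfl⟩ := hRp
    have hp0 : p ≠ 0 := hp.ne_zero
    set Y' : ℤ[X] := ∑ i ∈ Finset.range (M - s), monomial i (Y.coeff i / p) with hY'
    have hc : ∀ i, i < M - s → (Y - C p * Y').coeff i = 0 := by
      intro i hi
      rw [coeff_sub, coeff_C_mul, hY', finsetSum_coeff]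
      simp only [coeff_monomial]
      rw [Finset.sum_ite_eq' , if_pos (Finset.mem_range.2 hi)]
      rw [Int.mul_ediv_cancel' (hY i (by omega)), sub_self]
    have h1 : X ^ (M - s) ∣ Y - C p * Y' := X_pow_dvd_iff.2 hc
    have h2 : X ^ (M - s) ∣ C (p * R') - Q * Y := (pow_dvd_pow X (Nat.sub_le M s)).trans h
    have h3 : X ^ (M - s) ∣ C p * (C R' - Q * Y') := by
      have : C p * (C R' - Q * Y') = (C (p * R') - Q * Y) + Q * (Y - C p * Y') := by
        rw [C_mul]; ring
      rw [this]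
      exact dvd_add h2 (Dvd.dvd.mul_left h1 _)
    have h4 : X ^ (M - s) ∣ C R' - Q * Y' := by
      rw [X_pow_dvd_iff] at h3 ⊢
      intro d hd
      have := h3 d hd
      rw [coeff_C_mul] at this
      exact (mul_eq_zero.1 this).resolve_left hp0
    have h5 := ih (M - s) R' Y' (by
      have : (k + 1) * n = k * n + n := by ring
      omega) h4
    rw [pow_succ']
    exact mul_dvd_mul_left p h5

theorem resultant_bound (Q A : ℤ[X]) (H : ℕ) (hQ : ∀ i, (Q.coeff i).natAbs ≤ H)
    (hA : ∀ i, (A.coeff i).natAbs ≤ H) :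
    |resultant Q A| ≤ 2 ^ ((Q.natDegree + A.natDegree) ^ 2 * H) := by
  set N := Q.natDegree + A.natDegree with hN
  have h1 : ∀ i j, |sylvester Q A Q.natDegree A.natDegree i j| ≤ (H : ℤ) := by
    intro i j
    have hQ' : ∀ i, |Q.coeff i| ≤ (H : ℤ) := fun i => by
      rw [Int.abs_eq_natAbs]; exact_mod_cast hQ i
    have hA' : ∀ i, |A.coeff i| ≤ (H : ℤ) := fun i => by
      rw [Int.abs_eq_natAbs]; exact_mod_cast hA i
    have h0 : |(0 : ℤ)| ≤ H := by simp
    rw [sylvester, Matrix.of_apply]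
    refine Fin.addCases (fun j₁ => ?_) (fun j₁ => ?_) j
    · rw [Fin.addCases_left]
      split_ifs
      · exact hA' _
      · exact h0
    · rw [Fin.addCases_right]
      split_ifs
      · exact hQ' _
      · exact h0
  have h2 : |resultant Q A| ≤ (Fintype.card (Fin N)).factorial • (H : ℤ) ^ Fintype.card (Fin N) := by
    have := Matrix.det_le (abv := (AbsoluteValue.abs : AbsoluteValue ℤ ℤ)) (x := (H : ℤ))
      (A := sylvester Q A Q.natDegree A.natDegree) h1
    exact this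
  rw [Fintype.card_fin, nsmul_eq_mul] at h2
  have h3 : (N.factorial * H ^ N : ℕ) ≤ 2 ^ (N ^ 2 * H) := by
    calc N.factorial * H ^ N ≤ N ^ N * H ^ N := Nat.mul_le_mul_right _ (Nat.factorial_le_pow N)
      _ = (N * H) ^ N := (mul_pow _ _ _).symm
      _ ≤ (2 ^ (N * H)) ^ N := Nat.pow_le_pow_left (Nat.lt_two_pow_self).le N
      _ = 2 ^ (N ^ 2 * H) := by rw [← pow_mul]; congr 1; ring
  refine h2.trans ?_
  exact_mod_cast h3

theorem coprime_rat (Q A : ℤ[X]) (hQ : Irreducible Q) (hn : Q.natDegree ≠ 0) (hA : ¬ Q ∣ A) :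
    IsCoprime (Q.map (Int.castRingHom ℚ)) (A.map (Int.castRingHom ℚ)) := by
  have hprim : Q.IsPrimitive := hQ.isPrimitive hn
  have hirr : Irreducible (Q.map (Int.castRingHom ℚ)) :=
    (IsPrimitive.Int.irreducible_iff_irreducible_map_cast hprim).1 hQ
  have hA0 : A ≠ 0 := by
    rintro rfl
    exact hA (dvd_zero Q)
  by_contra hcop
  have h : Q.map (Int.castRingHom ℚ) ∣ A.map (Int.castRingHom ℚ) := by
    by_contra hnd
    exact hcop ((Irreducible.coprime_iff_not_dvd hirr).2 hnd)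
  · exfalso
    apply hA
    have h1 : A.map (Int.castRingHom ℚ) =
        C (A.content : ℚ) * (A.primPart).map (Int.castRingHom ℚ) := by
      conv_lhs => rw [A.eq_C_content_mul_primPart]
      rw [Polynomial.map_mul, map_C]
      rfl
    have hc0 : (A.content : ℚ) ≠ 0 := by
      have := content_eq_zero_iff.not.2 hA0
      exact_mod_cast this
    have h2 : Q.map (Int.castRingHom ℚ) ∣ (A.primPart).map (Int.castRingHom ℚ) := by
      rw [h1] at h
      exact ((isUnit_C.2 (isUnit_iff_ne_zero.2 hc0)).dvd_mul_left).1 h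
    have h3 : Q ∣ A.primPart :=
      (IsPrimitive.Int.dvd_iff_map_cast_dvd_map_cast _ _ hprim).2 h2
    exact h3.trans (primPart_dvd A)

theorem resultant_ne_zero' (Q A : ℤ[X]) (hQ : Irreducible Q) (hn : Q.natDegree ≠ 0)
    (hA : ¬ Q ∣ A) : resultant Q A ≠ 0 := by
  intro h0
  have h1 := coprime_rat Q A hQ hn hA
  have h2 : resultant (Q.map (Int.castRingHom ℚ)) (A.map (Int.castRingHom ℚ)) = 0 := by
    have h3 := resultant_map_map (f := Q) (g := A) (m := Q.natDegree) (n := A.natDegree)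
      (Int.castRingHom ℚ)
    rw [natDegree_map_eq_of_injective (RingHom.injective_int _),
      natDegree_map_eq_of_injective (RingHom.injective_int _), h3, h0, map_zero]
  rw [resultant_eq_zero_iff] at h2
  exact h2.2 h1

/-- **The gap principle.** -/
theorem gap (Q F A : ℤ[X]) (hQ : Irreducible Q) (hn : Q.natDegree ≠ 0) (h0 : ¬ IsUnit (Q.coeff 0))
    (hF : Q ∣ F) (hA : ¬ Q ∣ A) (H : ℕ) (hQH : ∀ i, (Q.coeff i).natAbs ≤ H)
    (hAH : ∀ i, (A.coeff i).natAbs ≤ H) (M : ℕ) (hM : X ^ M ∣ F - A) :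
    M ≤ Q.natDegree * ((Q.natDegree + A.natDegree) ^ 2 * H) := by
  classical
  set n := Q.natDegree with hndef
  by_contra hcon
  push Not at hcon
  obtain ⟨u, v, -, -, huv⟩ := exists_mul_add_mul_eq_C_resultant Q A le_rfl le_rfl (Or.inl hn)
  obtain ⟨T, rfl⟩ := hF
  set R := resultant Q A with hR
  have hRne : R ≠ 0 := resultant_ne_zero' Q A hQ hn hA
  -- a prime dividing the constant coefficient
  obtain ⟨p, hp, hpQ⟩ : ∃ p : ℤ, Prime p ∧ p ∣ Q.coeff 0 := by
    by_cases hz : Q.coeff 0 = 0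
    · exact ⟨2, Int.prime_two, by rw [hz]; exact dvd_zero 2⟩
    · obtain ⟨p, hp, hpd⟩ := WfDvdMonoid.exists_irreducible_factor h0 hz
      exact ⟨p, hp.prime, hpd⟩
  have hprim : Q.IsPrimitive := hQ.isPrimitive hn
  have hex : ∃ s, ¬ p ∣ Q.coeff s := by
    by_contra hall
    push Not at hall
    exact hp.not_isUnit (isPrimitive_iff_isUnit_of_C_dvd.1 hprim p (C_dvd_iff_dvd_coeff _ _ |>.2 hall))
  set s := Nat.find hex with hs
  have hs1 : ¬ p ∣ Q.coeff s := Nat.find_spec hex
  have hs2 : ∀ a < s, p ∣ Q.coeff a := fun a ha => not_not.1 (Nat.find_min hex ha)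
  have hspos : 1 ≤ s := by
    rcases Nat.eq_zero_or_pos s with h | h
    · rw [h] at hs1; exact absurd hpQ hs1
    · exact h
  have hsn : s ≤ n := by
    by_contra hh
    push Not at hh
    rw [coeff_eq_zero_of_natDegree_lt hh] at hs1
    exact hs1 (dvd_zero p)
  have hdiv : X ^ M ∣ C R - Q * (u + T * v) := by
    have : C R - Q * (u + T * v) = -((Q * T - A) * v) := by
      rw [← huv]; ring
    rw [this]
    exact (Dvd.dvd.mul_right hM v).neg_right
  have hpow := pow_dvd p hp Q s n hsn hspos hs1 hs2 ((n + A.natDegree) ^ 2 * H) M R (u + T * v)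
    (by rw [mul_comm]; omega) hdiv
  have h1 : |p| ^ ((n + A.natDegree) ^ 2 * H + 1) ≤ |R| := by
    rw [← abs_pow]
    exact Int.le_of_dvd (abs_pos.2 hRne) (by rw [abs_dvd, dvd_abs]; exact hpow)
  have h2 : (2 : ℤ) ≤ |p| := by
    have := hp.not_isUnit
    rw [Int.isUnit_iff_abs_eq] at this
    have h3 : 0 < |p| := abs_pos.2 hp.ne_zero
    omega
  have h3 : (2 : ℤ) ^ ((n + A.natDegree) ^ 2 * H + 1) ≤
      |p| ^ ((n + A.natDegree) ^ 2 * H + 1) := pow_le_pow_left₀ (by norm_num) h2 _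
  have h4 := resultant_bound Q A H hQH hAH
  have h5 : (2 : ℤ) ^ ((n + A.natDegree) ^ 2 * H + 1) ≤ 2 ^ ((n + A.natDegree) ^ 2 * H) :=
    (h3.trans h1).trans h4
  rw [pow_succ] at h5
  have h6 : (0 : ℤ) < 2 ^ ((n + A.natDegree) ^ 2 * H) := by positivity
  linarith

end Q247.ML
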