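import Mathlib
import Pool.Agent.Q247.ML.Gap
import Pool.Agent.Q247.ML.Defs

/-! The degree bound for a minimum-length multiple with non-zero constant coefficient. -/

set_option autoImplicit false

open Polynomial

namespace Q247.ML

/-- one step of the iteration bounding the exponents -/
def stepB (n H d : ℕ) : ℕ := n * ((n + d) ^ 2 * H)

theorem stepB_mono {n n' H H' d d' : ℕ} (hn : n ≤ n') (hH : H ≤ H') (hd : d ≤ d') :
    stepB n H d ≤ stepB n' H' d' := by
  unfold stepB
  gcongr

/-- truncation below `e` -/
noncomputable def trunc' (F : ℤ[X]) (e : ℕ) : ℤ[X] :=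
  ∑ i ∈ F.support.filter (· < e), monomial i (F.coeff i)

theorem trunc'_coeff (F : ℤ[X]) (e i : ℕ) :
    (trunc' F e).coeff i = if i < e then F.coeff i else 0 := by
  classical
  unfold trunc'
  rw [finsetSum_coeff]
  simp only [coeff_monomial]
  rw [Finset.sum_ite_eq']
  simp only [Finset.mem_filter, mem_support_iff]
  by_cases h1 : i < e
  · by_cases h2 : F.coeff i = 0
    · simp [h2]
    · simp [h1, h2]
  · simp [h1]

theorem len_trunc'_lt (F : ℤ[X]) (e : ℕ) (he : e ∈ F.support) : len (trunc' F e) < len F := by
  classical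
  have hsub : (trunc' F e).support ⊆ F.support.erase e := by
    intro i hi
    rw [mem_support_iff, trunc'_coeff] at hi
    split_ifs at hi with h1
    · rw [Finset.mem_erase]
      exact ⟨by omega, mem_support_iff.2 hi⟩
    · exact absurd rfl hi
  have h1 : len (trunc' F e) ≤ ∑ i ∈ F.support.erase e, (F.coeff i).natAbs := by
    unfold len
    calc ∑ i ∈ (trunc' F e).support, ((trunc' F e).coeff i).natAbs
        ≤ ∑ i ∈ (trunc' F e).support, (F.coeff i).natAbs := by
          refine Finset.sum_le_sum fun i _ => ?_
          rw [trunc'_coeff]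
          split_ifs <;> simp
      _ ≤ _ := Finset.sum_le_sum_of_subset hsub
  have h2 : len F = (F.coeff e).natAbs + ∑ i ∈ F.support.erase e, (F.coeff i).natAbs := by
    unfold len
    exact (Finset.add_sum_erase _ (fun i => (F.coeff i).natAbs) he).symm
  have h3 := mem_support_iff.1 he
  omega

theorem expo_bound (Q F : ℤ[X]) (hQ : Irreducible Q) (hn : Q.natDegree ≠ 0)
    (h0 : ¬ IsUnit (Q.coeff 0)) (hF : IsMinLengthMultiple Q F) (hF0 : F.coeff 0 ≠ 0)
    (n H : ℕ) (hnn : Q.natDegree ≤ n) (hH : len Q ≤ H) (k : ℕ) :
    ∀ e ∈ F.support, (F.support.filter (· < e)).card ≤ k → e ≤ (stepB n H)^[k] 0 := by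
  classical
  have h00 : 0 ∈ F.support := mem_support_iff.2 hF0
  have hlenF : len F ≤ H := (hF.min Q hQ.ne_zero dvd_rfl).trans hH
  induction k with
  | zero =>
    intro e he hc
    have h1 : F.support.filter (· < e) = ∅ := Finset.card_eq_zero.1 (Nat.le_zero.1 hc)
    have h2 : ¬ (0 < e) := by
      intro h
      have : 0 ∈ F.support.filter (· < e) := Finset.mem_filter.2 ⟨h00, h⟩
      rw [h1] at this
      exact absurd this (Finset.notMem_empty _)
    omega
  | succ k ih =>
    intro e he hc
    rcases Nat.eq_zero_or_pos e with h | h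
    · omega
    have hne : (F.support.filter (· < e)).Nonempty := ⟨0, Finset.mem_filter.2 ⟨h00, h⟩⟩
    set e' := (F.support.filter (· < e)).max' hne with he'
    have hmem := Finset.max'_mem _ hne
    rw [← he', Finset.mem_filter] at hmem
    have hle : ∀ i ∈ F.support, i < e → i ≤ e' := fun i hi hie =>
      Finset.le_max' _ _ (Finset.mem_filter.2 ⟨hi, hie⟩)
    have hc' : (F.support.filter (· < e')).card ≤ k := by
      have hss : F.support.filter (· < e') ⊂ F.support.filter (· < e) := by
        rw [Finset.ssubset_iff_of_subset]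
        · exact ⟨e', Finset.mem_filter.2 hmem, by simp⟩
        · intro i hi
          rw [Finset.mem_filter] at hi ⊢
          exact ⟨hi.1, hi.2.trans hmem.2⟩
      have := Finset.card_lt_card hss
      omega
    have ihe := ih e' hmem.1 hc'
    -- the truncation
    have hA0 : trunc' F e ≠ 0 := by
      intro hz
      have := trunc'_coeff F e 0
      rw [hz, if_pos h, coeff_zero] at this
      exact hF0 this.symm
    have hAQ : ¬ Q ∣ trunc' F e := by
      intro hd
      exact absurd (hF.min _ hA0 hd) (not_le.2 (len_trunc'_lt F e he))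
    have hdeg : (trunc' F e).natDegree ≤ e' := by
      rw [natDegree_le_iff_coeff_eq_zero]
      intro i hi
      rw [trunc'_coeff]
      split_ifs with h1
      · by_contra h2
        exact absurd (hle i (mem_support_iff.2 h2) h1) (by omega)
      · rfl
    have hX : X ^ e ∣ F - trunc' F e := by
      rw [X_pow_dvd_iff]
      intro d hd
      rw [coeff_sub, trunc'_coeff, if_pos hd, sub_self]
    have hg := gap Q F (trunc' F e) hQ hn h0 hF.dvd hAQ H
      (fun i => (coeff_natAbs_le_len Q i).trans hH)
      (fun i => by
        rw [trunc'_coeff]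
        split_ifs
        · exact (coeff_natAbs_le_len F i).trans hlenF
        · simp) e hX
    rw [Function.iterate_succ_apply']
    refine hg.trans ?_
    exact stepB_mono hnn le_rfl (hdeg.trans ihe) |>.trans' (by
      unfold stepB
      gcongr)

/-- The degree of a minimum-length multiple (with non-zero constant coefficient) is bounded. -/
theorem natDegree_bound (Q F : ℤ[X]) (hQ : Irreducible Q) (hn : Q.natDegree ≠ 0)
    (h0 : ¬ IsUnit (Q.coeff 0)) (hF : IsMinLengthMultiple Q F) (hF0 : F.coeff 0 ≠ 0)
    (n H : ℕ) (hnn : Q.natDegree ≤ n) (hH : len Q ≤ H) :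
    F.natDegree ≤ (stepB n H)^[H] 0 := by
  classical
  have hlenF : len F ≤ H := (hF.min Q hQ.ne_zero dvd_rfl).trans hH
  refine expo_bound Q F hQ hn h0 hF hF0 n H hnn hH H F.natDegree
    (natDegree_mem_support_of_nonzero hF.ne_zero) ?_
  exact (Finset.card_le_card (Finset.filter_subset _ _)).trans
    ((card_support_le_len F).trans hlenF)

end Q247.ML
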