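import Mathlib
import Pool.Agent.Q247.ML.Expo

/-! Passing to the reversed polynomial, and the bound for the cofactor. -/

set_option autoImplicit false

open Polynomial

namespace Q247.ML

theorem len_reverse (F : ℤ[X]) (h0 : F.coeff 0 ≠ 0) : len F.reverse = len F := by
  classical
  have hF : F ≠ 0 := by
    rintro rfl
    simp at h0
  have hdeg : F.reverse.natDegree = F.natDegree := by
    rw [reverse_natDegree, natTrailingDegree_eq_zero.2 (Or.inr h0), Nat.sub_zero]
  have h1 : ∀ G : ℤ[X], len G = ∑ i ∈ Finset.range (G.natDegree + 1), (G.coeff i).natAbs := by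
    intro G
    unfold len
    refine Finset.sum_subset ?_ ?_
    · intro i hi
      rw [Finset.mem_range]
      exact Nat.lt_succ_of_le (le_natDegree_of_mem_supp i hi)
    · intro i _ hi
      rw [notMem_support_iff.1 hi]; simp
  rw [h1, h1 F, hdeg, ← Finset.sum_range_reflect]
  refine Finset.sum_congr rfl fun i hi => ?_
  rw [Finset.mem_range] at hi
  rw [coeff_reverse, revAt_le (by omega)]
  congr 2
  omega

theorem reverse_reverse' (F : ℤ[X]) (h0 : F.coeff 0 ≠ 0) : F.reverse.reverse = F := by
  have hdeg : F.reverse.natDegree = F.natDegree := by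
    rw [reverse_natDegree, natTrailingDegree_eq_zero.2 (Or.inr h0), Nat.sub_zero]
  ext i
  rw [coeff_reverse, coeff_reverse, hdeg, revAt_invol]

theorem irreducible_reverse (P : ℤ[X]) (hP : Irreducible P) (hP0 : P.coeff 0 ≠ 0) :
    Irreducible P.reverse := by
  have key : ∀ a : ℤ[X], a.coeff 0 ≠ 0 → IsUnit a.reverse → IsUnit a := by
    intro a ha hu
    have hd : a.reverse.natDegree = a.natDegree := by
      rw [reverse_natDegree, natTrailingDegree_eq_zero.2 (Or.inr ha), Nat.sub_zero]
    have h1 := natDegree_eq_zero_of_isUnit hu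
    rw [hd] at h1
    obtain ⟨c, rfl⟩ := natDegree_eq_zero.1 h1
    rwa [reverse_C] at hu
  refine ⟨fun hu => hP.not_isUnit (key P hP0 hu), ?_⟩
  intro a b hab
  have h0 : P.reverse.coeff 0 ≠ 0 := by
    rw [coeff_zero_reverse]
    exact leadingCoeff_ne_zero.2 hP.ne_zero
  have ha : a.coeff 0 ≠ 0 := by
    intro h
    apply h0
    rw [hab, mul_coeff_zero, h, zero_mul]
  have hb : b.coeff 0 ≠ 0 := by
    intro h
    apply h0
    rw [hab, mul_coeff_zero, h, mul_zero]
  have h1 : P = a.reverse * b.reverse := by
    rw [← reverse_mul_of_domain, ← hab, reverse_reverse' P hP0]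
  rcases hP.isUnit_or_isUnit h1 with h | h
  · exact Or.inl (key a ha h)
  · exact Or.inr (key b hb h)

theorem dvd_reverse {P F : ℤ[X]} (h : P ∣ F) : P.reverse ∣ F.reverse := by
  obtain ⟨T, rfl⟩ := h
  rw [reverse_mul_of_domain]
  exact dvd_mul_right _ _

theorem len_X_pow_mul (F : ℤ[X]) (j : ℕ) : len (X ^ j * F) = len F := by
  classical
  unfold len
  symm
  refine Finset.sum_nbij (fun i => i + j) ?_ ?_ ?_ ?_
  · intro i hi
    rw [mem_support_iff] at hi ⊢
    rw [coeff_X_pow_mul]
    exact hi
  · intro a _ b _ h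
    simpa using h
  · intro i hi
    rw [Finset.mem_coe, mem_support_iff, coeff_X_pow_mul'] at hi
    split_ifs at hi with h
    · refine ⟨i - j, mem_support_iff.2 hi, ?_⟩
      simp only
      omega
    · exact absurd rfl hi
  · intro i _
    rw [coeff_X_pow_mul]

/-- Every nonzero multiple can be divided by a power of `X`. -/
theorem exists_coeff_zero_ne (P F : ℤ[X]) (hP : Irreducible P) (hP0 : P.coeff 0 ≠ 0)
    (hF : F ≠ 0) (hd : P ∣ F) : ∃ G : ℤ[X], G.coeff 0 ≠ 0 ∧ P ∣ G ∧ len G = len F := by
  classical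
  obtain ⟨G, hG⟩ : X ^ F.natTrailingDegree ∣ F := by
    rw [X_pow_dvd_iff]
    intro d hd
    exact coeff_eq_zero_of_lt_natTrailingDegree hd
  have hG0 : G.coeff 0 ≠ 0 := by
    have h1 : F.coeff F.natTrailingDegree ≠ 0 := by
      have := trailingCoeff_eq_zero.not.2 hF
      rwa [trailingCoeff] at this
    intro h
    apply h1
    have h2 : F.coeff F.natTrailingDegree =
        (X ^ F.natTrailingDegree * G).coeff F.natTrailingDegree :=
      congrArg (fun K : ℤ[X] => K.coeff F.natTrailingDegree) hG
    have := coeff_X_pow_mul G F.natTrailingDegree 0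
    rw [zero_add] at this
    rw [h2, this, h]
  refine ⟨G, hG0, ?_, ?_⟩
  · have hpr : Prime P := hP.prime
    rw [hG] at hd
    rcases hpr.dvd_or_dvd hd with h | h
    · exfalso
      have h2 := hpr.dvd_of_dvd_pow h
      have h3 : P.natDegree ≤ 1 := by
        have := natDegree_le_of_dvd h2 X_ne_zero
        rwa [natDegree_X] at this
      obtain ⟨S, hS⟩ := h2
      have h4 := irreducible_X (R := ℤ)
      rcases h4.isUnit_or_isUnit hS with h5 | h5
      · exact hP.not_isUnit h5
      · have h6 : (X : ℤ[X]).coeff 0 = 0 := coeff_X_zero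
        rw [hS, mul_coeff_zero] at h6
        rcases mul_eq_zero.1 h6 with h7 | h7
        · exact hP0 h7
        · rw [Polynomial.isUnit_iff] at h5
          obtain ⟨r, hr, rfl⟩ := h5
          rw [coeff_C_zero] at h7
          rw [h7] at hr
          exact not_isUnit_zero hr
    · exact h
  · conv_rhs => rw [hG]
    rw [len_X_pow_mul]

/-- Existence of a minimum-length multiple with nonzero constant coefficient. -/
theorem exists_min (P : ℤ[X]) (hP : Irreducible P) (hP0 : P.coeff 0 ≠ 0) :
    ∃ F : ℤ[X], IsMinLengthMultiple P F ∧ F.coeff 0 ≠ 0 := by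
  classical
  have hex : ∃ m : ℕ, ∃ F : ℤ[X], F ≠ 0 ∧ P ∣ F ∧ len F = m :=
    ⟨len P, P, hP.ne_zero, dvd_rfl, rfl⟩
  obtain ⟨F, hF0, hFd, hFm⟩ := Nat.find_spec hex
  obtain ⟨G, hG0, hGd, hGl⟩ := exists_coeff_zero_ne P F hP hP0 hF0 hFd
  refine ⟨G, ⟨?_, hGd, ?_⟩, hG0⟩
  · rintro rfl
    simp at hG0
  · intro K hK hKd
    rw [hGl, hFm]
    exact Nat.find_min' hex ⟨K, hK, hKd, rfl⟩

theorem IsMin_reverse (P F : ℤ[X]) (hP : Irreducible P) (hP0 : P.coeff 0 ≠ 0)
    (hF : IsMinLengthMultiple P F) (hF0 : F.coeff 0 ≠ 0) :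
    IsMinLengthMultiple P.reverse F.reverse := by
  refine ⟨?_, dvd_reverse hF.dvd, ?_⟩
  · rw [Ne, reverse_eq_zero]; exact hF.ne_zero
  · intro G hG hd
    rw [len_reverse F hF0]
    have hQ0 : P.reverse.coeff 0 ≠ 0 := by
      rw [coeff_zero_reverse]
      exact leadingCoeff_ne_zero.2 hP.ne_zero
    obtain ⟨G', hG'0, hG'd, hG'l⟩ := exists_coeff_zero_ne P.reverse G
      (irreducible_reverse P hP hP0) hQ0 hG hd
    have h1 : P ∣ G'.reverse := by
      have := dvd_reverse hG'd
      rwa [reverse_reverse' P hP0] at this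
    have h2 : G'.reverse ≠ 0 := by
      rw [Ne, reverse_eq_zero]
      rintro rfl
      simp at hG'0
    rw [← hG'l, ← len_reverse G' hG'0]
    exact hF.min _ h2 h1

/-- Degree bound in terms of `P`. -/
theorem natDegree_bound' (P F : ℤ[X]) (hP : Irreducible P) (hn : P.natDegree ≠ 0)
    (hP0 : P.coeff 0 ≠ 0) (hl : ¬ IsUnit P.leadingCoeff)
    (hF : IsMinLengthMultiple P F) (hF0 : F.coeff 0 ≠ 0)
    (n H : ℕ) (hnn : P.natDegree ≤ n) (hH : len P ≤ H) :
    F.natDegree ≤ (stepB n H)^[H] 0 := by
  have hd : ∀ G : ℤ[X], G.coeff 0 ≠ 0 → G.reverse.natDegree = G.natDegree := by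
    intro G hG
    rw [reverse_natDegree, natTrailingDegree_eq_zero.2 (Or.inr hG), Nat.sub_zero]
  have h1 := natDegree_bound P.reverse F.reverse (irreducible_reverse P hP hP0)
    (by rwa [hd P hP0]) (by rwa [coeff_zero_reverse]) (IsMin_reverse P F hP hP0 hF hF0)
    (by rw [coeff_zero_reverse]; exact leadingCoeff_ne_zero.2 hF.ne_zero) n H
    (by rwa [hd P hP0]) (by rwa [len_reverse P hP0])
  rwa [hd F hF0] at h1

/-- Coefficient bound for the cofactor. -/
theorem cofactor_bound (P T : ℤ[X]) (hP0 : P.coeff 0 ≠ 0) (H : ℕ) (hPH : len P ≤ H)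
    (hFH : len (P * T) ≤ H) (k : ℕ) : (T.coeff k).natAbs ≤ (H + 1) ^ (k + 1) := by
  classical
  induction k using Nat.strong_induction_on with
  | _ k ih =>
    have h1 : (P * T).coeff k = ∑ x ∈ Finset.HasAntidiagonal.antidiagonal k,
        P.coeff x.1 * T.coeff x.2 := coeff_mul _ _ _
    have hmem : (0, k) ∈ Finset.HasAntidiagonal.antidiagonal k := by
      rw [Finset.HasAntidiagonal.mem_antidiagonal]; omega
    rw [← Finset.add_sum_erase _ _ hmem] at h1
    set S := ∑ x ∈ (Finset.HasAntidiagonal.antidiagonal k).erase (0, k),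
        P.coeff x.1 * T.coeff x.2 with hS
    have h2 : P.coeff 0 * T.coeff k = (P * T).coeff k - S := by
      simp only at h1
      linarith
    have h3 : (T.coeff k).natAbs ≤ (P.coeff 0 * T.coeff k).natAbs := by
      rw [Int.natAbs_mul]
      exact Nat.le_mul_of_pos_left _ (Int.natAbs_pos.2 hP0)
    have h4 : S.natAbs ≤ H * (H + 1) ^ k := by
      calc S.natAbs ≤ ∑ x ∈ (Finset.HasAntidiagonal.antidiagonal k).erase (0, k),
            (P.coeff x.1 * T.coeff x.2).natAbs := Int.natAbs_sum_le _ _
        _ ≤ ∑ x ∈ (Finset.HasAntidiagonal.antidiagonal k).erase (0, k),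
            (P.coeff x.1).natAbs * (H + 1) ^ k := by
            refine Finset.sum_le_sum fun x hx => ?_
            rw [Finset.mem_erase, Finset.HasAntidiagonal.mem_antidiagonal] at hx
            rw [Int.natAbs_mul]
            have hlt : x.2 < k := by
              by_contra hge
              apply hx.1
              ext
              · simp only; omega
              · simp only; omega
            refine Nat.mul_le_mul_left _ ((ih x.2 hlt).trans ?_)
            exact Nat.pow_le_pow_right (by omega) (by omega)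
        _ = (∑ x ∈ (Finset.HasAntidiagonal.antidiagonal k).erase (0, k),
            (P.coeff x.1).natAbs) * (H + 1) ^ k := by rw [Finset.sum_mul]
        _ ≤ H * (H + 1) ^ k := by
            refine Nat.mul_le_mul_right _ (le_trans ?_ hPH)
            calc ∑ x ∈ (Finset.HasAntidiagonal.antidiagonal k).erase (0, k),
                  (P.coeff x.1).natAbs
                ≤ ∑ x ∈ Finset.HasAntidiagonal.antidiagonal k, (P.coeff x.1).natAbs :=
                  Finset.sum_le_sum_of_subset (Finset.erase_subset _ _)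
              _ = ∑ i ∈ Finset.range (k + 1), (P.coeff i).natAbs :=
                  Finset.Nat.sum_antidiagonal_eq_sum_range_succ_mk _ _
              _ ≤ ∑ i ∈ Finset.range (k + 1) ∪ P.support, (P.coeff i).natAbs :=
                  Finset.sum_le_sum_of_subset Finset.subset_union_left
              _ = len P := by
                  unfold len
                  symm
                  refine Finset.sum_subset Finset.subset_union_right ?_
                  intro i _ hi
                  rw [notMem_support_iff.1 hi]; simp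
    have h5 : ((P * T).coeff k).natAbs ≤ H := (coeff_natAbs_le_len _ _).trans hFH
    have h6 : ((P * T).coeff k - S).natAbs ≤ ((P * T).coeff k).natAbs + S.natAbs :=
      Int.natAbs_sub_le _ _
    rcases Nat.eq_zero_or_pos k with hk | hk
    · subst hk
      have hS0 : S = 0 := by
        rw [hS]
        refine Finset.sum_eq_zero fun x hx => ?_
        exfalso
        rw [Finset.mem_erase, Finset.HasAntidiagonal.mem_antidiagonal] at hx
        apply hx.1
        ext
        · simp only; omega
        · simp only; omega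
      rw [h2, hS0, sub_zero] at h3
      rw [zero_add, pow_one]
      omega
    · have h7 : H + 1 ≤ (H + 1) ^ k := by
        calc H + 1 = (H + 1) ^ 1 := (pow_one _).symm
          _ ≤ _ := Nat.pow_le_pow_right (by omega) hk
      have h8 : (H + 1) ^ (k + 1) = H * (H + 1) ^ k + (H + 1) ^ k := by ring
      rw [h2] at h3
      omega

end Q247.ML
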