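import Mathlib
import Pool.Agent.Q247.ML.Rev
import Pool.Agent.Q247.ML.Prim

/-! The algorithm computing a minimum-length multiple. -/

set_option autoImplicit false

open Polynomial

namespace Q247.ML

/-! ### the algorithm -/

def Dn (l : List ℤ) : ℕ := (stepB l.length (lenL l))^[lenL l] 0

def Bn (l : List ℤ) : ℕ := (fun x => (lenL l + 1) * x)^[Dn l + 1] 1

/-- is the new candidate better? -/
def better (l best t : List ℤ) : List ℤ :=
  if 0 < lenL (mulL l t) then
    if lenL (mulL l t) < lenL best then mulL l t else best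
  else best

def alg (l : List ℤ) : List ℤ := (cands (Bn l) (Dn l + 1)).foldl (better l) l

theorem prim_Dn : Primrec Dn := by
  unfold Dn
  refine Primrec.nat_iterate (f := lenL) (g := fun _ => 0)
    (h := fun l d => stepB l.length (lenL l) d) prim_lenL (Primrec.const 0) ?_
  unfold stepB
  have h1 : Primrec (fun p : List ℤ × ℕ => p.1.length) := Primrec.list_length.comp Primrec.fst
  have h2 : Primrec (fun p : List ℤ × ℕ => p.1.length + p.2) := Primrec.nat_add.comp h1 Primrec.snd
  have h3 : Primrec (fun p : List ℤ × ℕ =>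
      p.1.length * ((p.1.length + p.2) * (p.1.length + p.2) * lenL p.1)) :=
    Primrec.nat_mul.comp h1 (Primrec.nat_mul.comp (Primrec.nat_mul.comp h2 h2)
      (prim_lenL.comp Primrec.fst))
  refine Primrec.of_eq (α := List ℤ × ℕ) h3 fun p => ?_
  show _ = p.1.length * ((p.1.length + p.2) ^ 2 * lenL p.1)
  rw [pow_two]

theorem prim_Bn : Primrec Bn := by
  unfold Bn
  refine Primrec.nat_iterate (f := fun l => Dn l + 1) (g := fun _ => 1)
    (h := fun l x => (lenL l + 1) * x) (Primrec.succ.comp prim_Dn) (Primrec.const 1) ?_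
  exact Primrec.nat_mul.comp (Primrec.succ.comp (prim_lenL.comp Primrec.fst)) Primrec.snd

theorem Bn_eq (l : List ℤ) : Bn l = (lenL l + 1) ^ (Dn l + 1) := by
  unfold Bn
  generalize Dn l + 1 = k
  induction k with
  | zero => simp
  | succ k ih =>
    rw [Function.iterate_succ_apply', ih, pow_succ']

theorem prim_better : Primrec (fun p : (List ℤ × List ℤ) × List ℤ => better p.1.1 p.1.2 p.2) := by
  unfold better
  have hm : Primrec (fun p : (List ℤ × List ℤ) × List ℤ => mulL p.1.1 p.2) :=
    prim_mulL.comp (Primrec.fst.comp Primrec.fst) Primrec.snd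
  have hl : Primrec (fun p : (List ℤ × List ℤ) × List ℤ => lenL (mulL p.1.1 p.2)) :=
    prim_lenL.comp hm
  have hb : Primrec (fun p : (List ℤ × List ℤ) × List ℤ => p.1.2) :=
    Primrec.snd.comp Primrec.fst
  refine Primrec.ite ?_ (Primrec.ite ?_ hm hb) hb
  · exact Primrec.nat_lt.comp (Primrec.const 0) hl
  · exact Primrec.nat_lt.comp hl (prim_lenL.comp hb)

theorem prim_alg : Primrec alg := by
  unfold alg
  refine Primrec.list_foldl (f := fun l : List ℤ => cands (Bn l) (Dn l + 1)) (g := fun l => l)
    (h := fun l p => better l p.1 p.2) ?_ Primrec.id ?_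
  · exact prim_cands.comp prim_Bn (Primrec.succ.comp prim_Dn)
  · have h : Primrec (fun q : List ℤ × (List ℤ × List ℤ) => ((q.1, q.2.1), q.2.2)) :=
      Primrec.pair (Primrec.pair Primrec.fst (Primrec.fst.comp Primrec.snd))
        (Primrec.snd.comp Primrec.snd)
    exact (prim_better.comp h).to₂

/-! ### the meaning of the list operations -/

theorem coeff_toPoly (l : List ℤ) (i : ℕ) : (toPoly l).coeff i = l.getD i 0 := by
  induction l generalizing i with
  | nil => simp [toPoly]
  | cons a l ih =>
    unfold toPoly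
    cases i with
    | zero => simp
    | succ i => rw [coeff_add, coeff_C_succ, coeff_X_mul, zero_add, ih, List.getD_cons_succ]

theorem toPoly_addL (a b : List ℤ) : toPoly (addL a b) = toPoly a + toPoly b := by
  ext i
  rw [coeff_add, coeff_toPoly, coeff_toPoly, coeff_toPoly]
  unfold addL
  by_cases h : i < max a.length b.length
  · rw [List.getD_eq_getElem _ _ (by simpa using h)]
    simp
  · rw [List.getD_eq_default _ _ (by simpa using h),
      List.getD_eq_default _ _ (by omega), List.getD_eq_default _ _ (by omega), add_zero]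

theorem toPoly_scaleL (c : ℤ) (b : List ℤ) : toPoly (scaleL c b) = C c * toPoly b := by
  induction b with
  | nil => simp [scaleL, toPoly]
  | cons x b ih =>
    unfold scaleL at ih ⊢
    rw [List.map_cons, toPoly, toPoly, ih, C_mul]
    ring

theorem toPoly_mulL (a b : List ℤ) : toPoly (mulL a b) = toPoly a * toPoly b := by
  induction a with
  | nil => simp [mulL, toPoly]
  | cons c a ih =>
    unfold mulL at ih ⊢
    rw [List.foldr_cons, toPoly_addL, toPoly_scaleL]
    rw [toPoly, toPoly, ih, C_0]
    ring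

theorem len_C_add_X_mul (a : ℤ) (F : ℤ[X]) : len (C a + X * F) = a.natAbs + len F := by
  classical
  have h1 : ∀ (G : ℤ[X]) (n : ℕ), G.natDegree < n →
      len G = ∑ i ∈ Finset.range n, (G.coeff i).natAbs := by
    intro G n hn
    unfold len
    refine Finset.sum_subset ?_ ?_
    · intro i hi
      rw [Finset.mem_range]
      exact lt_of_le_of_lt (le_natDegree_of_mem_supp i hi) hn
    · intro i _ hi
      rw [notMem_support_iff.1 hi]; simp
  have h2 : (C a + X * F).natDegree < F.natDegree + 1 + 1 := by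
    refine Nat.lt_succ_of_le (natDegree_add_le_of_degree_le (by simp) ?_)
    refine natDegree_mul_le.trans ?_
    rw [natDegree_X]; omega
  rw [h1 _ _ h2, Finset.sum_range_succ', h1 F (F.natDegree + 1) (Nat.lt_succ_self _)]
  rw [add_comm]
  congr 1
  · simp
  · refine Finset.sum_congr rfl fun i _ => ?_
    rw [coeff_add, coeff_C_succ, coeff_X_mul, zero_add]

theorem len_toPoly (l : List ℤ) : len (toPoly l) = lenL l := by
  induction l with
  | nil => simp [toPoly, len, lenL]
  | cons a l ih =>
    rw [toPoly, len_C_add_X_mul, ih]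
    rfl

theorem len_eq_zero (F : ℤ[X]) : len F = 0 ↔ F = 0 := by
  constructor
  · intro h
    ext i
    have := coeff_natAbs_le_len F i
    rw [coeff_zero]
    omega
  · rintro rfl
    simp [len]

theorem natDegree_toPoly_le (l : List ℤ) : (toPoly l).natDegree ≤ l.length := by
  rw [natDegree_le_iff_coeff_eq_zero]
  intro i hi
  rw [coeff_toPoly, List.getD_eq_default _ _ hi.le]

theorem mem_cands (B m : ℕ) : ∀ T : ℤ[X], (∀ i, m ≤ i → T.coeff i = 0) →
    (∀ i, (T.coeff i).natAbs ≤ B) → ∃ t ∈ cands B m, toPoly t = T := by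
  induction m with
  | zero =>
    intro T h1 _
    refine ⟨[], by simp [cands], ?_⟩
    ext i
    rw [h1 i (Nat.zero_le _)]
    simp [toPoly]
  | succ m ih =>
    intro T h1 h2
    obtain ⟨t, ht, htT⟩ := ih (divX T) (fun i hi => by rw [coeff_divX]; exact h1 _ (by omega))
      (fun i => by rw [coeff_divX]; exact h2 _)
    refine ⟨T.coeff 0 :: t, ?_, ?_⟩
    · unfold cands
      rw [Function.iterate_succ_apply']
      unfold extend
      rw [List.mem_flatMap]
      refine ⟨t, ht, ?_⟩
      rw [List.mem_map]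
      refine ⟨(T.coeff 0 + B).toNat, ?_, ?_⟩
      · rw [List.mem_range]
        have := h2 0
        omega
      · have := h2 0
        congr 1
        omega
    · rw [toPoly, htT, add_comm, X_mul_divX_add]
      
/-! ### correctness -/

theorem foldl_better (l : List ℤ) (L : List (List ℤ)) : ∀ b : List ℤ,
    toPoly b ≠ 0 → toPoly l ∣ toPoly b →
    (toPoly (L.foldl (better l) b) ≠ 0 ∧ toPoly l ∣ toPoly (L.foldl (better l) b) ∧
      lenL (L.foldl (better l) b) ≤ lenL b ∧
      ∀ t ∈ L, 0 < lenL (mulL l t) → lenL (L.foldl (better l) b) ≤ lenL (mulL l t)) := by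
  induction L with
  | nil =>
    intro b h1 h2
    exact ⟨h1, h2, le_rfl, fun t ht => absurd ht (List.not_mem_nil)⟩
  | cons t L ih =>
    intro b h1 h2
    have hb : toPoly (better l b t) ≠ 0 ∧ toPoly l ∣ toPoly (better l b t) ∧
        lenL (better l b t) ≤ lenL b ∧
        (0 < lenL (mulL l t) → lenL (better l b t) ≤ lenL (mulL l t)) := by
      unfold better
      split_ifs with h3 h4
      · refine ⟨?_, ?_, h4.le, fun _ => le_rfl⟩
        · rw [Ne, ← len_eq_zero, len_toPoly]
          omega
        · rw [toPoly_mulL]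
          exact dvd_mul_right _ _
      · exact ⟨h1, h2, le_rfl, fun _ => not_lt.1 h4⟩
      · exact ⟨h1, h2, le_rfl, fun h => absurd h h3⟩
    obtain ⟨g1, g2, g3, g4⟩ := ih (better l b t) hb.1 hb.2.1
    rw [List.foldl_cons]
    refine ⟨g1, g2, g3.trans hb.2.2.1, ?_⟩
    intro s hs hs0
    rcases List.mem_cons.1 hs with rfl | hs'
    · exact g3.trans (hb.2.2.2 hs0)
    · exact g4 s hs' hs0

theorem alg_correct (l : List ℤ) (hP : Irreducible (toPoly l)) (hn : (toPoly l).natDegree ≠ 0)
    (hl : ¬ IsUnit (toPoly l).leadingCoeff) :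
    IsMinLengthMultiple (toPoly l) (toPoly (alg l)) := by
  classical
  set P := toPoly l with hPdef
  have hP0 : P.coeff 0 ≠ 0 := by
    intro h
    rw [← X_dvd_iff] at h
    obtain ⟨S, hS⟩ := h
    rcases hP.isUnit_or_isUnit hS with h1 | h1
    · exact not_isUnit_X h1
    · apply hl
      rw [hS, leadingCoeff_mul, leadingCoeff_X, one_mul]
      rw [Polynomial.isUnit_iff] at h1
      obtain ⟨r, hr, rfl⟩ := h1
      rwa [leadingCoeff_C]
  obtain ⟨F, hF, hF0⟩ := exists_min P hP hP0
  have hdeg : F.natDegree ≤ Dn l :=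
    natDegree_bound' P F hP hn hP0 hl hF hF0 l.length (lenL l) (natDegree_toPoly_le l)
      (len_toPoly l).le
  have hlenF : len F ≤ lenL l := (hF.min P hP.ne_zero dvd_rfl).trans (len_toPoly l).le
  obtain ⟨T, hT⟩ := hF.dvd
  have hTdeg : ∀ i, Dn l + 1 ≤ i → T.coeff i = 0 := by
    intro i hi
    apply coeff_eq_zero_of_natDegree_lt
    have hT0 : T ≠ 0 := by
      rintro rfl
      rw [mul_zero] at hT
      exact hF.ne_zero hT
    have : F.natDegree = P.natDegree + T.natDegree := by
      rw [hT, natDegree_mul hP.ne_zero hT0]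
    omega
  have hTB : ∀ i, (T.coeff i).natAbs ≤ Bn l := by
    intro i
    rw [Bn_eq]
    by_cases hi : Dn l + 1 ≤ i
    · rw [hTdeg i hi]; simp
    · refine (cofactor_bound P T hP0 (lenL l) (len_toPoly l).le (by rw [← hT]; exact hlenF)
        i).trans ?_
      exact Nat.pow_le_pow_right (by omega) (by omega)
  obtain ⟨t, ht, htT⟩ := mem_cands (Bn l) (Dn l + 1) T hTdeg hTB
  obtain ⟨g1, g2, g3, g4⟩ := foldl_better l (cands (Bn l) (Dn l + 1)) l hP.ne_zero dvd_rfl
  refine ⟨g1, g2, ?_⟩
  intro G hG hGd
  have h1 : len (toPoly (mulL l t)) = len F := by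
    rw [toPoly_mulL, htT, ← hPdef, ← hT]
  have h2 := g4 t ht (by
    rw [← len_toPoly, h1]
    exact Nat.pos_of_ne_zero fun h => hF.ne_zero ((len_eq_zero F).1 h))
  rw [← len_toPoly, ← len_toPoly, h1] at h2
  exact h2.trans (hF.min G hG hGd)

end Q247.ML
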